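import Mathlib

set_option autoImplicit false

/-! The sum of the absolute values of the coefficients of a polynomial over the integers, its degree,
and the bounds for determinants. -/

namespace Pool.Agent.Y210.EF

open MvPolynomial

variable {σ : Type*}

/-- the sum of the absolute values of the coefficients -/
noncomputable def l1 (F : MvPolynomial σ ℤ) : ℕ := ∑ s ∈ F.support, (F.coeff s).natAbs

theorem l1_eq {F : MvPolynomial σ ℤ} {S : Finset (σ →₀ ℕ)} (h : F.support ⊆ S) :
    l1 F = ∑ s ∈ S, (F.coeff s).natAbs := by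
  refine Finset.sum_subset h fun s _ hs => ?_
  rw [MvPolynomial.notMem_support_iff.1 hs, Int.natAbs_zero]

theorem l1_add (F G : MvPolynomial σ ℤ) : l1 (F + G) ≤ l1 F + l1 G := by
  classical
  rw [l1_eq (F := F + G) (S := F.support ∪ G.support) MvPolynomial.support_add,
    l1_eq (F := F) (S := F.support ∪ G.support) Finset.subset_union_left,
    l1_eq (F := G) (S := F.support ∪ G.support) Finset.subset_union_right, ← Finset.sum_add_distrib]
  refine Finset.sum_le_sum fun s _ => ?_
  rw [coeff_add]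
  exact Int.natAbs_add_le _ _

theorem l1_zero : l1 (0 : MvPolynomial σ ℤ) = 0 := by simp [l1]

theorem l1_sum {ι : Type*} (S : Finset ι) (f : ι → MvPolynomial σ ℤ) :
    l1 (∑ i ∈ S, f i) ≤ ∑ i ∈ S, l1 (f i) := by
  classical
  induction S using Finset.induction_on with
  | empty => simp [l1_zero]
  | insert a S ha ih =>
    rw [Finset.sum_insert ha, Finset.sum_insert ha]
    exact (l1_add _ _).trans (by omega)

theorem l1_monomial (s : σ →₀ ℕ) (c : ℤ) : l1 (monomial s c) ≤ c.natAbs := by
  classical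
  rw [l1_eq (S := {s}) (by
    intro t ht
    rw [mem_support_iff, coeff_monomial] at ht
    rw [Finset.mem_singleton]
    by_contra hne
    exact ht (if_neg fun h => hne h.symm))]
  simp

theorem l1_mul (F G : MvPolynomial σ ℤ) : l1 (F * G) ≤ l1 F * l1 G := by
  classical
  have h1 : F * G = ∑ s ∈ F.support, ∑ t ∈ G.support, monomial (s + t) (F.coeff s * G.coeff t) := by
    conv_lhs => rw [F.as_sum, G.as_sum, Finset.sum_mul_sum]
    refine Finset.sum_congr rfl fun s _ => Finset.sum_congr rfl fun t _ => ?_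
    rw [monomial_mul]
  rw [h1]
  refine (l1_sum _ _).trans ?_
  unfold l1
  rw [Finset.sum_mul_sum]
  refine Finset.sum_le_sum fun s _ => (l1_sum _ _).trans (Finset.sum_le_sum fun t _ => ?_)
  rw [← Int.natAbs_mul]
  exact l1_monomial _ _

theorem l1_one : l1 (1 : MvPolynomial σ ℤ) ≤ 1 := by
  have := l1_monomial (σ := σ) 0 1
  simpa using this

theorem l1_prod {ι : Type*} (S : Finset ι) (f : ι → MvPolynomial σ ℤ) (B : ℕ)
    (h : ∀ i ∈ S, l1 (f i) ≤ B) : l1 (∏ i ∈ S, f i) ≤ B ^ S.card := by
  classical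
  induction S using Finset.induction_on with
  | empty => simpa using l1_one
  | insert a S ha ih =>
    rw [Finset.prod_insert ha, Finset.card_insert_of_notMem ha, pow_succ, mul_comm]
    refine (l1_mul _ _).trans ?_
    exact Nat.mul_le_mul (ih fun i hi => h i (Finset.mem_insert_of_mem hi))
      (h a (Finset.mem_insert_self _ _))

theorem l1_neg (F : MvPolynomial σ ℤ) : l1 (-F) = l1 F := by
  unfold l1
  rw [support_neg]
  exact Finset.sum_congr rfl fun s _ => by rw [coeff_neg, Int.natAbs_neg]

theorem l1_C (c : ℤ) : l1 (C c : MvPolynomial σ ℤ) ≤ c.natAbs := l1_monomial 0 c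

theorem l1_X_pow (i : σ) (k : ℕ) : l1 (X i ^ k : MvPolynomial σ ℤ) ≤ 1 := by
  rw [X_pow_eq_monomial]
  simpa using l1_monomial (Finsupp.single i k) 1

theorem l1_det {k : ℕ} (A : Matrix (Fin k) (Fin k) (MvPolynomial σ ℤ)) (B : ℕ)
    (h : ∀ i j, l1 (A i j) ≤ B) : l1 A.det ≤ k.factorial * B ^ k := by
  rw [Matrix.det_apply]
  refine (l1_sum _ _).trans ?_
  have h1 : ∀ s ∈ (Finset.univ : Finset (Equiv.Perm (Fin k))),
      l1 (Equiv.Perm.sign s • ∏ i, A (s i) i) ≤ B ^ k := by
    intro s _
    have h2 : l1 (∏ i, A (s i) i) ≤ B ^ k := by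
      have := l1_prod Finset.univ (fun i => A (s i) i) B fun i _ => h _ _
      rwa [Finset.card_univ, Fintype.card_fin] at this
    rcases Int.units_eq_one_or (Equiv.Perm.sign s) with hs | hs
    · rw [hs, one_smul]; exact h2
    · rw [hs, Units.neg_smul, one_smul, l1_neg]; exact h2
  refine (Finset.sum_le_sum h1).trans ?_
  rw [Finset.sum_const, Finset.card_univ, Fintype.card_perm, Fintype.card_fin, smul_eq_mul]

theorem deg_det {k : ℕ} (A : Matrix (Fin k) (Fin k) (MvPolynomial σ ℤ)) (B : ℕ)
    (h : ∀ i j, (A i j).totalDegree ≤ B) : A.det.totalDegree ≤ k * B := by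
  rw [Matrix.det_apply]
  refine totalDegree_finsetSum_le fun s _ => ?_
  have h2 : (∏ i, A (s i) i).totalDegree ≤ k * B := by
    refine (totalDegree_finsetProd _ _).trans ?_
    refine (Finset.sum_le_sum fun i _ => h (s i) i).trans ?_
    rw [Finset.sum_const, Finset.card_univ, Fintype.card_fin, smul_eq_mul]
  rcases Int.units_eq_one_or (Equiv.Perm.sign s) with hs | hs
  · rw [hs, one_smul]; exact h2
  · rw [hs, Units.neg_smul, one_smul, totalDegree_neg]; exact h2

/-- a polynomial with nonzero image -/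
theorem map_ne_zero_of_lt {L : Type*} [Field L] {F : MvPolynomial σ ℤ} (hF : F ≠ 0) {H : ℕ}
    (hH : l1 F ≤ H) (hL : CharZero L ∨ ∃ p : ℕ, CharP L p ∧ H < p) :
    F.map (Int.castRingHom L) ≠ 0 := by
  obtain ⟨s, hs⟩ := exists_coeff_ne_zero hF
  intro h0
  have h1 : ((F.coeff s : ℤ) : L) = 0 := by
    have := congrArg (coeff s) h0
    rw [coeff_map, coeff_zero] at this
    simpa using this
  rcases hL with hL | ⟨p, hp, hHp⟩
  · exact hs (by exact_mod_cast h1)
  · rw [CharP.intCast_eq_zero_iff L p] at h1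
    have h2 := Int.natAbs_dvd_natAbs.2 h1
    rw [Int.natAbs_natCast] at h2
    have h3 : 0 < (F.coeff s).natAbs := Int.natAbs_pos.2 hs
    have h4 := Nat.le_of_dvd h3 h2
    have h5 : (F.coeff s).natAbs ≤ l1 F :=
      Finset.single_le_sum (f := fun s => (F.coeff s).natAbs) (fun _ _ => Nat.zero_le _)
        (mem_support_iff.2 hs)
    omega

end Pool.Agent.Y210.EF
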