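import Mathlib
import Pool.Agent.Y210.EF.Nrm

set_option autoImplicit false

/-! Explicit integers at which a polynomial does not vanish, and the number of the zeros in a box. -/

namespace Pool.Agent.Y210.EF

open MvPolynomial

theorem val_inj {N E : ℕ} {s t : Fin N →₀ ℕ} (hs : ∀ j, s j < E) (ht : ∀ j, t j < E)
    (h : ∑ j, s j * E ^ (j : ℕ) = ∑ j, t j * E ^ (j : ℕ)) : s = t := by
  have h1 : (fun j => (⟨s j, hs j⟩ : Fin E)) = fun j => (⟨t j, ht j⟩ : Fin E) := by
    apply (finFunctionFinEquiv (m := E) (n := N)).injective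
    apply Fin.ext
    simpa [finFunctionFinEquiv_apply] using h
  ext j
  exact congrArg Fin.val (congrFun h1 j)

theorem lt_of_totalDegree {N E : ℕ} {F : MvPolynomial (Fin N) ℤ} (hE : F.totalDegree < E)
    {s : Fin N →₀ ℕ} (hs : s ∈ F.support) (j : Fin N) : s j < E := by
  have h1 : s j ≤ ∑ i ∈ s.support, s i := by
    by_cases hj : j ∈ s.support
    · exact Finset.single_le_sum (f := fun i => s i) (fun _ _ => Nat.zero_le _) hj
    · rw [Finsupp.notMem_support_iff.1 hj]; exact Nat.zero_le _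
  have h2 : (s.sum fun _ e => e) ≤ F.totalDegree := le_totalDegree hs
  exact (h1.trans h2).trans_lt hE

theorem kron {N : ℕ} {F : MvPolynomial (Fin N) ℤ} (hF : F ≠ 0) {E T : ℕ} (hE : F.totalDegree < E)
    (hT : l1 F < T) : eval (fun j : Fin N => (T : ℤ) ^ (E ^ (j : ℕ))) F ≠ 0 := by
  classical
  obtain ⟨v, hv⟩ : ∃ v : (Fin N →₀ ℕ) → ℕ, v = fun s => ∑ j : Fin N, s j * E ^ (j : ℕ) := ⟨_, rfl⟩
  have hinj : ∀ s ∈ F.support, ∀ t ∈ F.support, v s = v t → s = t := by
    intro s hs t ht h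
    rw [hv] at h
    exact val_inj (lt_of_totalDegree hE hs) (lt_of_totalDegree hE ht) h
  have hev : eval (fun j : Fin N => (T : ℤ) ^ (E ^ (j : ℕ))) F =
      ∑ s ∈ F.support, F.coeff s * (T : ℤ) ^ v s := by
    rw [eval_eq]
    refine Finset.sum_congr rfl fun s _ => ?_
    congr 1
    rw [hv, ← Finset.prod_pow_eq_pow_sum]
    rw [Finset.prod_subset (Finset.subset_univ s.support)]
    · refine Finset.prod_congr rfl fun j _ => ?_
      rw [← pow_mul, mul_comm]
    · intro j _ hj
      rw [Finsupp.notMem_support_iff.1 hj, pow_zero]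
  have hne : F.support.Nonempty := by
    rw [Finset.nonempty_iff_ne_empty, Ne, MvPolynomial.support_eq_empty]
    exact hF
  obtain ⟨m, hm, hmax⟩ := F.support.exists_max_image v hne
  intro h0
  rw [hev, ← Finset.add_sum_erase _ _ hm] at h0
  have hT0 : (0 : ℤ) < T := by
    have : 0 < T := by omega
    exact_mod_cast this
  have hTpos : (1 : ℤ) ≤ T := hT0
  have h1 : |(T : ℤ) * ∑ s ∈ F.support.erase m, F.coeff s * (T : ℤ) ^ v s| ≤
      (l1 F : ℤ) * (T : ℤ) ^ v m := by
    rw [Finset.mul_sum]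
    refine (Finset.abs_sum_le_sum_abs _ _).trans ?_
    have h2 : ∀ s ∈ F.support.erase m, |(T : ℤ) * (F.coeff s * (T : ℤ) ^ v s)| ≤
        ((F.coeff s).natAbs : ℤ) * (T : ℤ) ^ v m := by
      intro s hs
      rw [Finset.mem_erase] at hs
      have h3 : v s + 1 ≤ v m := by
        rcases (hmax s hs.2).lt_or_eq with h | h
        · exact h
        · exact absurd (hinj s hs.2 m hm h) hs.1
      have h4 : (T : ℤ) * (F.coeff s * (T : ℤ) ^ v s) = F.coeff s * (T : ℤ) ^ (v s + 1) := by ring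
      rw [h4, abs_mul, abs_of_nonneg (pow_nonneg hT0.le _), Int.abs_eq_natAbs]
      exact mul_le_mul_of_nonneg_left (pow_le_pow_right₀ hTpos h3) (by positivity)
    refine (Finset.sum_le_sum h2).trans ?_
    rw [← Finset.sum_mul]
    refine mul_le_mul_of_nonneg_right ?_ (by positivity)
    unfold l1
    push_cast
    exact Finset.sum_le_sum_of_subset_of_nonneg (Finset.erase_subset _ _) fun _ _ _ => by positivity
  have h5 : |(T : ℤ) * ∑ s ∈ F.support.erase m, F.coeff s * (T : ℤ) ^ v s| =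
      T * (|F.coeff m| * (T : ℤ) ^ v m) := by
    have h6 : ∑ s ∈ F.support.erase m, F.coeff s * (T : ℤ) ^ v s = -(F.coeff m * (T : ℤ) ^ v m) := by
      linarith
    rw [h6, mul_neg, abs_neg, abs_mul, abs_mul, abs_of_nonneg (pow_nonneg hT0.le _), abs_of_pos hT0]
  rw [h5] at h1
  have h7 : 1 ≤ |F.coeff m| := Int.one_le_abs (mem_support_iff.1 hm)
  have h8 : (0 : ℤ) < (T : ℤ) ^ v m := pow_pos hT0 _
  have h9 : (l1 F : ℤ) < T := by exact_mod_cast hT
  nlinarith [mul_lt_mul_of_pos_right h9 h8, mul_le_mul_of_nonneg_right h7 h8.le,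
    mul_le_mul_of_nonneg_left (mul_le_mul_of_nonneg_right h7 h8.le) hT0.le]

/-- the index of a coordinate -/
def idx {n : ℕ} (ij : Fin n × Fin 2) : ℕ := 2 * (ij.1 : ℕ) + ij.2

theorem l1_rename {σ τ : Type*} (f : σ → τ) (F : MvPolynomial σ ℤ) :
    l1 (rename f F) ≤ l1 F := by
  classical
  conv_lhs => rw [F.as_sum, map_sum]
  refine (l1_sum _ _).trans (Finset.sum_le_sum fun s _ => ?_)
  rw [rename_monomial]
  exact l1_monomial _ _

theorem kron_points {n : ℕ} {F : MvPolynomial (Fin n × Fin 2) ℤ} (hF : F ≠ 0) {E T : ℕ}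
    (hE : F.totalDegree < E) (hT : l1 F < T) :
    eval (fun ij : Fin n × Fin 2 => (T : ℤ) ^ (E ^ (idx ij))) F ≠ 0 := by
  have h1 : rename (finProdFinEquiv (m := n) (n := 2)) F ≠ 0 := fun h =>
    hF ((rename_injective _ (finProdFinEquiv (m := n) (n := 2)).injective) (by rw [h, map_zero]))
  have h2 := kron h1 (E := E) (T := T)
    ((totalDegree_rename_le _ _).trans_lt hE)
    ((l1_rename _ F).trans_lt hT)
  rw [eval_rename] at h2
  have h3 : (fun j : Fin (n * 2) => (T : ℤ) ^ (E ^ (j : ℕ))) ∘ (finProdFinEquiv (m := n) (n := 2)) =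
      fun ij : Fin n × Fin 2 => (T : ℤ) ^ (E ^ (idx ij)) := by
    funext ij
    simp only [Function.comp_apply, finProdFinEquiv_apply_val, idx]
    rw [add_comm (2 * (ij.1 : ℕ))]
  rw [h3] at h2
  exact h2

/-- **the number of the zeros in a box** -/
theorem count_zeros {L : Type*} [Field L] [DecidableEq L] {n : ℕ} {F : MvPolynomial (Fin n × Fin 2) L}
    (hF : F ≠ 0) {D : ℕ} (hD : F.totalDegree ≤ D) (S : Finset L) :
    ((Fintype.piFinset fun _ : Fin n × Fin 2 => S).filter fun Y => eval Y F = 0).card * S.card ≤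
      D * S.card ^ (2 * n) := by
  classical
  rcases Nat.eq_zero_or_pos S.card with h0 | hpos
  · rw [h0, mul_zero]; exact Nat.zero_le _
  obtain ⟨e, he⟩ : ∃ e : Fin n × Fin 2 ≃ Fin (n * 2), e = finProdFinEquiv := ⟨_, rfl⟩
  have h1 : rename e F ≠ 0 := fun h =>
    hF ((rename_injective _ e.injective) (by rw [h, map_zero]))
  have h2 := schwartz_zippel_totalDegree h1 S
  have h3 : ((Fintype.piFinset fun _ : Fin n × Fin 2 => S).filter fun Y => eval Y F = 0).card ≤
      ((Fintype.piFinset fun _ : Fin (n * 2) => S).filter fun Y => eval Y (rename e F) = 0).card := by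
    refine Finset.card_le_card_of_injOn (fun Y => Y ∘ e.symm) ?_ ?_
    · intro Y hY
      simp only [Finset.coe_filter, Fintype.mem_piFinset, Set.mem_ofPred_eq] at hY ⊢
      refine ⟨fun j => hY.1 _, ?_⟩
      rw [eval_rename]
      have : (Y ∘ e.symm) ∘ e = Y := by funext x; simp
      rw [this]; exact hY.2
    · intro Y _ Z _ h
      funext x
      have := congrFun h (e x)
      simpa using this
  have h4 : ((rename e F).totalDegree : ℚ≥0) ≤ D := by
    exact_mod_cast (totalDegree_rename_le _ _).trans hD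
  have hs : (0 : ℚ≥0) < S.card := by exact_mod_cast hpos
  rw [div_le_div_iff₀ (by positivity) hs] at h2
  have h5 : ((((Fintype.piFinset fun _ : Fin n × Fin 2 => S).filter fun Y => eval Y F = 0).card *
      S.card : ℕ) : ℚ≥0) ≤ ((D * S.card ^ (2 * n) : ℕ) : ℚ≥0) := by
    push_cast
    calc _ ≤ (((Fintype.piFinset fun _ : Fin (n * 2) => S).filter
          fun Y => eval Y (rename e F) = 0).card : ℚ≥0) * S.card := by
          gcongr
      _ ≤ (rename e F).totalDegree * (S.card : ℚ≥0) ^ (n * 2) := h2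
      _ ≤ D * (S.card : ℚ≥0) ^ (2 * n) := by
          have e1 : (S.card : ℚ≥0) ^ (n * 2) = (S.card : ℚ≥0) ^ (2 * n) := by rw [mul_comm n 2]
          rw [e1]
          gcongr
  exact_mod_cast h5

theorem exists_nonzero {L : Type*} [Field L] {n : ℕ} {F : MvPolynomial (Fin n × Fin 2) L}
    (hF : F ≠ 0) {D : ℕ} (hD : F.totalDegree ≤ D) (S : Finset L) (hS : D < S.card) :
    ∃ Y : Fin n × Fin 2 → L, (∀ ij, Y ij ∈ S) ∧ eval Y F ≠ 0 := by
  classical
  by_contra hcon
  push Not at hcon
  have h1 := count_zeros hF hD S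
  have h2 : ((Fintype.piFinset fun _ : Fin n × Fin 2 => S).filter fun Y => eval Y F = 0) =
      Fintype.piFinset fun _ : Fin n × Fin 2 => S := by
    refine Finset.filter_true_of_mem fun Y hY => hcon Y fun ij => Fintype.mem_piFinset.1 hY ij
  rw [h2, Fintype.card_piFinset, Finset.prod_const, Finset.card_univ, Fintype.card_prod,
    Fintype.card_fin, Fintype.card_fin, mul_comm n 2, mul_comm] at h1
  have h3 : 0 < S.card ^ (2 * n) := pow_pos (by omega) _
  have h4 := Nat.le_of_mul_le_mul_right h1 h3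
  omega

end Pool.Agent.Y210.EF
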