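import Mathlib
import Pool.Agent.H340R2.LW2
import Pool.Agent.Y210.EF.Kron

set_option autoImplicit false

/-! Points with the coordinates `exp (2 ^ (k / (2 n)))`: no polynomial relation. -/

namespace Pool.Agent.Y210.EF

open Polynomial

theorem irr_X_pow_sub_two {N : ℕ} (hN : 0 < N) : Irreducible (X ^ N - C 2 : ℚ[X]) := by
  have hm : (X ^ N - C 2 : ℤ[X]).Monic := monic_X_pow_sub_C 2 hN.ne'
  have h1 : Irreducible (X ^ N - C 2 : ℤ[X]) := by
    have hprime : (Ideal.span {(2 : ℤ)}).IsPrime := by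
      rw [Ideal.span_singleton_prime (by norm_num)]
      exact Int.prime_two
    have hdeg : (X ^ N - C 2 : ℤ[X]).natDegree = N := natDegree_X_pow_sub_C
    refine irreducible_of_eisenstein_criterion hprime ?_ ?_ ?_ ?_ hm.isPrimitive
    · rw [hm.leadingCoeff, Ideal.mem_span_singleton]
      norm_num
    · intro n hn
      rw [degree_eq_natDegree hm.ne_zero, hdeg] at hn
      have hn' : n < N := by exact_mod_cast hn
      rw [Ideal.mem_span_singleton, coeff_sub, coeff_X_pow, if_neg hn'.ne, coeff_C]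
      split_ifs <;> norm_num
    · rw [degree_eq_natDegree hm.ne_zero, hdeg]
      exact_mod_cast hN
    · rw [Ideal.span_singleton_pow, Ideal.mem_span_singleton, coeff_sub, coeff_X_pow,
        if_neg hN.ne, coeff_C_zero]
      norm_num
  have h2 := (hm.irreducible_iff_irreducible_map_fraction_map (K := ℚ)).1 h1
  have h3 : (X ^ N - C 2 : ℤ[X]).map (algebraMap ℤ ℚ) = (X ^ N - C 2 : ℚ[X]) := by
    rw [Polynomial.map_sub, Polynomial.map_pow, map_X, map_C]
    simp
  rwa [h3] at h2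

theorem idx_lt {n : ℕ} (ij : Fin n × Fin 2) : idx ij < 2 * n := by
  unfold idx
  have h1 := ij.1.2
  have h2 := ij.2.2
  omega

theorem idx_inj {n : ℕ} : Function.Injective (idx (n := n)) := by
  intro a b h
  unfold idx at h
  have h1 := a.2.2
  have h2 := b.2.2
  apply Prod.ext
  · apply Fin.ext; omega
  · apply Fin.ext; omega

/-- the powers of the root of two are linearly independent -/
theorem lin_pow {n : ℕ} {x : ℂ} (hx : x ^ (2 * n) = 2) (hn : 1 ≤ n)
    {a : Fin n × Fin 2 → ℚ} (h : ∑ ij, (a ij : ℂ) * x ^ idx ij = 0) : a = 0 := by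
  classical
  obtain ⟨p, hp⟩ : ∃ p : ℚ[X], p = ∑ ij : Fin n × Fin 2, C (a ij) * X ^ idx ij := ⟨_, rfl⟩
  have hev : aeval x p = 0 := by
    rw [hp, map_sum, ← h]
    refine Finset.sum_congr rfl fun ij _ => ?_
    rw [map_mul, aeval_C, map_pow, aeval_X]
    rfl
  have hN : 0 < 2 * n := by omega
  have hmin : minpoly ℚ x = X ^ (2 * n) - C 2 := by
    symm
    apply minpoly.eq_of_irreducible_of_monic (irr_X_pow_sub_two hN)
    · rw [map_sub, map_pow, aeval_X, aeval_C, hx]
      simp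
    · exact monic_X_pow_sub_C _ hN.ne'
  have hdvd : minpoly ℚ x ∣ p := minpoly.dvd ℚ x hev
  have hdeg : p.degree < (minpoly ℚ x).degree := by
    rw [hmin, degree_X_pow_sub_C hN, hp]
    refine (degree_sum_le _ _).trans_lt ?_
    rw [Finset.sup_lt_iff (by exact_mod_cast WithBot.bot_lt_coe (2 * n))]
    intro ij _
    refine (degree_C_mul_X_pow_le _ _).trans_lt ?_
    exact_mod_cast idx_lt ij
  have hp0 : p = 0 := eq_zero_of_dvd_of_degree_lt hdvd hdeg
  funext ij
  have h1 := congrArg (fun q => coeff q (idx ij)) hp0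
  simp only [hp, finsetSum_coeff, coeff_C_mul, coeff_X_pow, coeff_zero] at h1
  rw [Finset.sum_eq_single ij] at h1
  · simpa using h1
  · intro kl _ hne
    rw [if_neg, mul_zero]
    exact fun h => hne (idx_inj h.symm)
  · intro h; exact absurd (Finset.mem_univ _) h

/-- **no polynomial relation** -/
theorem exp_points {n : ℕ} (hn : 1 ≤ n) {F : MvPolynomial (Fin n × Fin 2) ℤ} (hF : F ≠ 0) :
    MvPolynomial.eval₂ (Int.castRingHom ℂ) (fun ij : Fin n × Fin 2 =>
      Complex.exp (((2 : ℝ) ^ ((idx ij : ℝ) / (2 * n)) : ℝ) : ℂ)) F ≠ 0 := by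
  classical
  intro h0
  obtain ⟨y, hy⟩ : ∃ y : ℝ, y = (2 : ℝ) ^ ((1 : ℝ) / (2 * n)) := ⟨_, rfl⟩
  have hnR : (0 : ℝ) < 2 * n := by
    have : (1 : ℝ) ≤ n := by exact_mod_cast hn
    linarith
  have hyk : ∀ k : ℕ, (2 : ℝ) ^ ((k : ℝ) / (2 * n)) = y ^ k := by
    intro k
    rw [hy, ← Real.rpow_natCast, ← Real.rpow_mul (by norm_num)]
    congr 1
    field_simp
  obtain ⟨x, hx⟩ : ∃ x : ℂ, x = (y : ℂ) := ⟨_, rfl⟩
  have hx2 : x ^ (2 * n) = 2 := by
    have h1 : y ^ (2 * n) = 2 := by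
      rw [← hyk]
      push_cast
      rw [div_self hnR.ne', Real.rpow_one]
    rw [hx]
    exact_mod_cast h1
  have hxalg : IsAlgebraic ℚ x := by
    refine ⟨X ^ (2 * n) - C 2, (irr_X_pow_sub_two (by omega)).ne_zero, ?_⟩
    rw [map_sub, map_pow, aeval_X, aeval_C, hx2]
    simp
  have hcoe : ∀ ij : Fin n × Fin 2, (((2 : ℝ) ^ ((idx ij : ℝ) / (2 * n)) : ℝ) : ℂ) = x ^ idx ij := by
    intro ij
    rw [hyk, hx]
    push_cast
    rfl
  have hsum : ∑ s ∈ F.support, ((MvPolynomial.coeff s F : ℤ) : ℂ) *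
      Complex.exp (∑ ij : Fin n × Fin 2, (s ij : ℂ) * x ^ idx ij) = 0 := by
    rw [← h0, MvPolynomial.eval₂_eq']
    refine Finset.sum_congr rfl fun s _ => ?_
    rw [Complex.exp_sum]
    congr 1
    refine Finset.prod_congr rfl fun ij _ => ?_
    rw [hcoe, ← Complex.exp_nat_mul]
  have hLW := Pool.Agent.H340R2.LW.lindemann_weierstrass F.support
    (fun s => ∑ ij : Fin n × Fin 2, (s ij : ℂ) * x ^ idx ij) (fun s => ((MvPolynomial.coeff s F : ℤ) : ℂ))
    (fun s _ => ?_) (fun s _ => isAlgebraic_intCast (MvPolynomial.coeff s F)) ?_ hsum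
  · obtain ⟨s, hs⟩ := MvPolynomial.exists_coeff_ne_zero hF
    have h1 := hLW s (MvPolynomial.mem_support_iff.2 hs)
    exact hs (by exact_mod_cast h1)
  · refine (IsIntegral.sum _ fun ij _ => ?_).isAlgebraic
    exact ((isAlgebraic_natCast (s ij)).mul (hxalg.pow _)).isIntegral
  · intro s _ t _ hst
    have h1 : (fun ij : Fin n × Fin 2 => ((s ij : ℚ) - (t ij : ℚ))) = 0 := by
      apply lin_pow hx2 hn
      simp only at hst
      rw [← sub_eq_zero, ← Finset.sum_sub_distrib] at hst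
      rw [← hst]
      refine Finset.sum_congr rfl fun ij _ => ?_
      push_cast
      ring
    ext ij
    have h2 := congrFun h1 ij
    simp only [Pi.zero_apply, sub_eq_zero] at h2
    exact_mod_cast h2

end Pool.Agent.Y210.EF
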