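import Mathlib

set_option autoImplicit false

/-! A matrix has a nonzero minor of the size of its rank. -/

namespace Pool.Agent.Y210.EF

open Matrix

variable {K : Type*} [Field K]

theorem exists_cols {R C : Type*} [Fintype R] [Fintype C] [DecidableEq C] (A : Matrix R C K) :
    ∃ g : Fin A.rank → C, LinearIndependent K (fun j => A.col (g j)) := by
  have h1 := Submodule.exists_fun_fin_finrank_span_eq K (Set.range A.col)
  rw [← A.rank_eq_finrank_span_cols] at h1
  obtain ⟨f, hf, -, hli⟩ := h1
  choose g hg using hf
  exact ⟨g, by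
    have : (fun j => A.col (g j)) = f := funext hg
    rw [this]; exact hli⟩

theorem exists_minor {R C : Type*} [Fintype R] [Fintype C] [DecidableEq C] [DecidableEq R]
    (A : Matrix R C K) :
    ∃ (f : Fin A.rank → R) (g : Fin A.rank → C), (A.submatrix f g).det ≠ 0 := by
  obtain ⟨g, hg⟩ := exists_cols A
  have hB : (A.submatrix id g).rank = A.rank := by
    have h1 : (A.submatrix id g).rank = Fintype.card (Fin A.rank) := by
      rw [Matrix.rank_eq_finrank_span_cols]
      have : (A.submatrix id g).col = fun j => A.col (g j) := rfl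
      rw [this]
      exact finrank_span_eq_card hg
    rw [h1, Fintype.card_fin]
  obtain ⟨f, hf⟩ := exists_cols (A.submatrix id g)ᵀ
  have hr : (A.submatrix id g)ᵀ.rank = A.rank := by rw [Matrix.rank_transpose, hB]
  refine ⟨fun i => f (Fin.cast hr.symm i), g, ?_⟩
  have h2 : LinearIndependent K (fun i : Fin A.rank =>
      ((A.submatrix id g)ᵀ).col (f (Fin.cast hr.symm i))) :=
    hf.comp _ (Fin.cast_injective _)
  have h3 : LinearIndependent K (A.submatrix (fun i => f (Fin.cast hr.symm i)) g).row := by
    exact h2
  rw [Matrix.linearIndependent_rows_iff_isUnit, Matrix.isUnit_iff_isUnit_det] at h3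
  exact h3.ne_zero

end Pool.Agent.Y210.EF
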