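import Mathlib
import Pool.Agent.H932R3.OpenV
import Pool.Agent.H932R2.Points
import Pool.Agent.Y210.EF.Lin

set_option autoImplicit false

/-! The matrix of the conditions imposed by fat points, with entries in the polynomials over the
integers, and its minors, over every field. -/

namespace Pool.Agent.Y210.EF

open Polynomial Pool.Agent.H932R2 Pool.Agent.H932R3

/-- the conditions: point, order in `x`, order in `y` -/
abbrev Cd {n : ℕ} (w : Fin n → ℕ) : Type := Σ a : Fin n, EE 1 (w a)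

theorem card_Cd {n : ℕ} (w : Fin n → ℕ) : Fintype.card (Cd w) = ∑ a, (w a + 1).choose 2 := by
  rw [Fintype.card_sigma]
  refine Finset.sum_congr rfl fun a _ => ?_
  rw [Fintype.card_coe]
  have h1 := card_EE 1 (w a)
  have h2 : (w a + 1).choose 2 * 2 = (w a + 1) * w a := by
    rw [Nat.choose_two_right, Nat.div_mul_cancel (Nat.even_mul_pred_self _).two_dvd]
    rfl
  linarith

theorem card_T (d : ℕ) : (Tfin d).card = (d + 2).choose 2 := by
  have h4 := card_Tfin d
  have h5 : (d + 2).choose 2 * 2 = (d + 2) * (d + 1) := by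
    rw [Nat.choose_two_right, Nat.div_mul_cancel (Nat.even_mul_pred_self _).two_dvd]
    rfl
  linarith

/-- the entry of the condition `p` and the monomial with exponents `u` -/
noncomputable def ent {n : ℕ} {w : Fin n → ℕ} (p : Cd w) (u : ℕ × ℕ) :
    MvPolynomial (Fin n × Fin 2) ℤ :=
  MvPolynomial.C ((u.1.choose p.2.1.1 * u.2.choose p.2.1.2 : ℕ) : ℤ) *
    (MvPolynomial.X (p.1, 0) ^ (u.1 - p.2.1.1) * MvPolynomial.X (p.1, 1) ^ (u.2 - p.2.1.2))

variable {K : Type*} [Field K]

/-- evaluation at a configuration of points -/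
noncomputable def ev {n : ℕ} (P : Fin n → Fin 2 → K) : MvPolynomial (Fin n × Fin 2) ℤ →+* K :=
  MvPolynomial.eval₂Hom (Int.castRingHom K) (fun ij : Fin n × Fin 2 => P ij.1 ij.2)

theorem ev_ent {n : ℕ} {w : Fin n → ℕ} (P : Fin n → Fin 2 → K) (p : Cd w) (u : ℕ × ℕ) :
    ev P (ent p u) = ((u.1.choose p.2.1.1 * u.2.choose p.2.1.2 : ℕ) : K) *
      (P p.1 0 ^ (u.1 - p.2.1.1) * P p.1 1 ^ (u.2 - p.2.1.2)) := by
  simp [ev, ent]

theorem coeff_sh_mon (c b : K) (u : ℕ × ℕ) (i l : ℕ) :
    ((sh c (C b) (mon K u)).coeff l).coeff i =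
      ((u.1.choose i * u.2.choose l : ℕ) : K) * (c ^ (u.1 - i) * b ^ (u.2 - l)) := by
  have h1 : sh c (C b) (mon K u) = C ((X + C c) ^ u.1) * (X + C (C b)) ^ u.2 := by
    rw [mon, map_mul, sh_C, map_pow, sh_X, C_comp, pow_comp, X_comp]
  rw [h1, coeff_C_mul, coeff_X_add_C_pow]
  have h2 : (C b : K[X]) ^ (u.2 - l) * ((u.2.choose l : ℕ) : K[X]) =
      C (b ^ (u.2 - l) * (u.2.choose l : K)) := by
    rw [C_mul, C_pow, C_eq_natCast]
  rw [h2, coeff_mul_C, coeff_X_add_C_pow]
  push_cast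
  ring

/-- the conditions as a linear map on the monomials -/
noncomputable def LL {n : ℕ} (w : Fin n → ℕ) (M : Finset (ℕ × ℕ)) (P : Fin n → Fin 2 → K) :
    (Fin M.card → K) →ₗ[K] (Cd w → K) :=
  (condMapV 1 w (fun a => P a 0) (fun a => C (P a 1))).comp (coordMap K M)

/-- the matrix of the conditions -/
noncomputable def Am {n : ℕ} (w : Fin n → ℕ) (M : Finset (ℕ × ℕ)) (P : Fin n → Fin 2 → K) :
    Matrix (Cd w) (Fin M.card) K := fun p j => ev P (ent p (enumM M j))

theorem LL_eq {n : ℕ} (w : Fin n → ℕ) (M : Finset (ℕ × ℕ)) (P : Fin n → Fin 2 → K) :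
    LL w M P = (Am w M P).mulVecLin := by
  refine LinearMap.ext fun v => funext fun p => ?_
  rw [LL, LinearMap.comp_apply, coordMap_apply, map_sum, Finset.sum_apply,
    Matrix.mulVecLin_apply, Matrix.mulVec, dotProduct]
  refine Finset.sum_congr rfl fun j _ => ?_
  rw [map_smul, Pi.smul_apply, smul_eq_mul, mul_comm]
  congr 1
  rw [Am, ev_ent, ← coeff_sh_mon]
  rfl

theorem finrank_ker_LL {n : ℕ} (w : Fin n → ℕ) (M : Finset (ℕ × ℕ)) (c : Fin n → K)
    (γ : Fin n → K[X]) :
    Module.finrank K ↥(LinearMap.ker ((condMapV 1 w c γ).comp (coordMap K M))) =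
      Module.finrank K ↥(mspan K (↑M : Set (ℕ × ℕ)) ⊓
        Submodule.restrictScalars K (vIdeal 1 w c γ)) := by
  refine LinearEquiv.finrank_eq (LinearEquiv.ofBijective
    { toFun := fun f => ⟨coordMap K M f.1, (mem_mspan_iff M _).2 ⟨f.1, rfl⟩,
        mem_vIdeal_iff.2 f.2⟩
      map_add' := fun f g => Subtype.ext (map_add _ _ _)
      map_smul' := fun a f => Subtype.ext (map_smul _ _ _) } ⟨?_, ?_⟩)
  · intro f g hfg
    exact Subtype.ext (coordMap_inj M (congrArg Subtype.val hfg))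
  · rintro ⟨f, hf, hf'⟩
    obtain ⟨a, rfl⟩ := (mem_mspan_iff M f).1 hf
    exact ⟨⟨a, mem_vIdeal_iff.1 hf'⟩, rfl⟩

/-- the rank of the matrix, if the dimension is the expected one -/
theorem rank_Am {n : ℕ} {w : Fin n → ℕ} {P : Fin n → Fin 2 → K} {d : ℕ}
    (h : Module.finrank K
      ↥(MvPolynomial.homogeneousSubmodule (Fin 3) K d ⊓
        Submodule.restrictScalars K
          (⨅ i : Fin n,
            (Ideal.span
              ({MvPolynomial.X 0 - MvPolynomial.C (P i 0) * MvPolynomial.X 2,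
                MvPolynomial.X 1 - MvPolynomial.C (P i 1) * MvPolynomial.X 2} :
                Set (MvPolynomial (Fin 3) K))) ^ (w i)))
      = Nat.choose (d + 2) 2 - ∑ i, Nat.choose (w i + 1) 2) :
    (Am w (Tfin d) P).rank = min ((d + 2).choose 2) (∑ i, (w i + 1).choose 2) := by
  classical
  have h1 : Module.finrank K ↥(LinearMap.ker (LL w (Tfin d) P)) =
      (d + 2).choose 2 - ∑ i, (w i + 1).choose 2 := by
    rw [← h]
    rw [finrank_forms (K := K) (d := d) _ (Submodule.restrictScalars K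
      (vIdeal 1 w (fun a => P a 0) (fun a => C (P a 1)))) (fun F hF => by
        rw [Submodule.restrictScalars_mem, Submodule.restrictScalars_mem]
        unfold vIdeal
        rw [Ideal.mem_iInf, Ideal.mem_iInf]
        exact forall_congr' fun i => mem_ptIdeal_iff hF)]
    rw [← coe_Tfin]
    exact finrank_ker_LL w (Tfin d) _ _
  have h2 := LinearMap.finrank_range_add_finrank_ker (LL w (Tfin d) P)
  rw [h1, Module.finrank_fin_fun] at h2
  have h3 := card_T d
  rw [Matrix.rank, ← LL_eq]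
  omega

/-- a nonzero minor gives the rank in the sense of the library -/
theorem rk_of_minor {n : ℕ} {w : Fin n → ℕ} {P : Fin n → Fin 2 → K} {M : Finset (ℕ × ℕ)} {k : ℕ}
    (f : Fin k → Cd w) (g : Fin k → Fin M.card)
    (h : ev P (Matrix.of fun i j => ent (f i) (enumM M (g j))).det ≠ 0) :
    RkI (vIdeal 1 w (fun a => P a 0) (fun a => C (P a 1))) (↑M : Set (ℕ × ℕ)) k := by
  refine ⟨fun j => mon K (enumM M (g j)), fun j => Submodule.subset_span
    ⟨_, enumM_mem M (g j), rfl⟩, fun c hc => ?_⟩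
  rw [mem_vIdeal_iff] at hc
  rw [RingHom.map_det] at h
  have h1 : ((ev P).mapMatrix (Matrix.of fun i j => ent (f i) (enumM M (g j)))).mulVec c = 0 := by
    funext i
    have h2 := congrFun hc (f i)
    rw [map_sum, Finset.sum_apply] at h2
    rw [Matrix.mulVec, dotProduct, Pi.zero_apply]
    rw [Pi.zero_apply] at h2
    rw [← h2]
    refine Finset.sum_congr rfl fun j _ => ?_
    rw [map_smul, Pi.smul_apply, smul_eq_mul, mul_comm]
    congr 1
    rw [RingHom.mapMatrix_apply, Matrix.map_apply, Matrix.of_apply, ev_ent, ← coeff_sh_mon]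
    rfl
  exact fun j => congrFun (Matrix.eq_zero_of_mulVec_eq_zero h h1) j

end Pool.Agent.Y210.EF
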