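import Mathlib
import Pool.Agent.Y210.EF.Ent
import Pool.Agent.Y210.EF.Kron

set_option autoImplicit false

/-! From one configuration over one field to explicit hypersurfaces over all fields. -/

namespace Pool.Agent.Y210.EF

open Polynomial Pool.Agent.H932R2 Pool.Agent.H932R3

/-- the number of conditions -/
def cnd {n : ℕ} (w : Fin n → ℕ) : ℕ := ∑ i, (w i + 1).choose 2

/-- the forms of degree `d` with multiplicity at least `w i` at the point `(P i 0 : P i 1 : 1)` have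
the expected dimension -/
def ED (L : Type*) [Field L] {n : ℕ} (w : Fin n → ℕ) (P : Fin n → Fin 2 → L) (d : ℕ) : Prop :=
  Module.finrank L
    ↥(MvPolynomial.homogeneousSubmodule (Fin 3) L d ⊓
      Submodule.restrictScalars L
        (⨅ i : Fin n,
          (Ideal.span
            ({MvPolynomial.X 0 - MvPolynomial.C (P i 0) * MvPolynomial.X 2,
              MvPolynomial.X 1 - MvPolynomial.C (P i 1) * MvPolynomial.X 2} :
              Set (MvPolynomial (Fin 3) L))) ^ (w i)))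
  = Nat.choose (d + 2) 2 - ∑ i, Nat.choose (w i + 1) 2

/-- the dimensions in the degrees `d ≤ e` and `f ≤ d` from the ranks -/
theorem ed_of_rk {L : Type*} [Field L] {n : ℕ} {w : Fin n → ℕ} {P : Fin n → Fin 2 → L} {e f : ℕ}
    (h2 : RkI (vIdeal 1 w (fun a => P a 0) (fun a => C (P a 1))) (↑(Tfin e) : Set (ℕ × ℕ))
      ((e + 2).choose 2))
    (h3 : RkI (vIdeal 1 w (fun a => P a 0) (fun a => C (P a 1))) (↑(Tfin f) : Set (ℕ × ℕ)) (cnd w))
    (d : ℕ) (hd : d ≤ e ∨ f ≤ d) : ED L w P d := by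
  have hsum : ∑ a, (EE 1 (w a)).card = ∑ i, (w i + 1).choose 2 := by
    have h1 : Fintype.card (Cd w) = ∑ a, (EE 1 (w a)).card := by
      rw [Fintype.card_sigma]
      exact Finset.sum_congr rfl fun a _ => Fintype.card_coe _
    rw [← h1, card_Cd]
  have key : Module.finrank L ↥(mspan L (Tset d) ⊓ Submodule.restrictScalars L
      (vIdeal 1 w (fun a => P a 0) (fun a => C (P a 1)))) =
      (d + 2).choose 2 - ∑ a, (EE 1 (w a)).card := by
    rcases hd with h | h
    · rw [← coe_Tfin, ← card_T]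
      refine finrank_infV (n := (Tfin d).card) ?_ (Or.inl rfl)
      rw [← card_T] at h2
      refine h2.subset ?_
      have := Tset_mono h
      rw [← coe_Tfin, ← coe_Tfin] at this
      exact_mod_cast this
    · rw [← coe_Tfin, ← card_T]
      refine finrank_infV (n := ∑ a, (EE 1 (w a)).card) ?_ (Or.inr rfl)
      rw [coe_Tfin] at h3 ⊢
      rw [hsum]
      exact h3.mono (Tset_mono h)
  rw [hsum] at key
  unfold ED
  rw [← key]
  refine finrank_forms _ _ fun F hF => ?_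
  rw [Submodule.restrictScalars_mem, Submodule.restrictScalars_mem]
  unfold vIdeal
  rw [Ideal.mem_iInf, Ideal.mem_iInf]
  exact forall_congr' fun i => mem_ptIdeal_iff hF

theorem deg_ent {n : ℕ} {w : Fin n → ℕ} (p : Cd w) (u : ℕ × ℕ) :
    (ent p u).totalDegree ≤ u.1 + u.2 := by
  unfold ent
  refine (MvPolynomial.totalDegree_mul _ _).trans ?_
  rw [MvPolynomial.totalDegree_C, zero_add]
  refine (MvPolynomial.totalDegree_mul _ _).trans ?_
  rw [MvPolynomial.totalDegree_X_pow, MvPolynomial.totalDegree_X_pow]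
  omega

theorem l1_ent {n : ℕ} {w : Fin n → ℕ} (p : Cd w) (u : ℕ × ℕ) :
    l1 (ent p u) ≤ 2 ^ (u.1 + u.2) := by
  unfold ent
  refine (l1_mul _ _).trans ?_
  have h1 := l1_C (σ := Fin n × Fin 2) ((u.1.choose p.2.1.1 * u.2.choose p.2.1.2 : ℕ) : ℤ)
  rw [Int.natAbs_natCast] at h1
  have h2 : l1 (MvPolynomial.X (p.1, (0 : Fin 2)) ^ (u.1 - p.2.1.1) *
      MvPolynomial.X (p.1, (1 : Fin 2)) ^ (u.2 - p.2.1.2) : MvPolynomial (Fin n × Fin 2) ℤ) ≤ 1 := by
    refine (l1_mul _ _).trans ?_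
    exact (Nat.mul_le_mul (l1_X_pow _ _) (l1_X_pow _ _)).trans (by norm_num)
  have h3 : u.1.choose p.2.1.1 * u.2.choose p.2.1.2 ≤ 2 ^ (u.1 + u.2) := by
    rw [pow_add]
    exact Nat.mul_le_mul (Nat.choose_le_two_pow _ _) (Nat.choose_le_two_pow _ _)
  calc _ ≤ (u.1.choose p.2.1.1 * u.2.choose p.2.1.2) * 1 := Nat.mul_le_mul h1 h2
    _ ≤ _ := by rw [mul_one]; exact h3

theorem mem_T {d : ℕ} {u : ℕ × ℕ} (h : u ∈ Tfin d) : u.1 + u.2 ≤ d := by
  have h1 : u ∈ (↑(Tfin d) : Set (ℕ × ℕ)) := h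
  rw [coe_Tfin] at h1
  exact h1

/-- one degree -/
theorem one_degree {K : Type*} [Field K] {n : ℕ} {w : Fin n → ℕ} {P : Fin n → Fin 2 → K} {d : ℕ}
    (h : ED K w P d) :
    ∃ F : MvPolynomial (Fin n × Fin 2) ℤ, F ≠ 0 ∧
      F.totalDegree ≤ min ((d + 2).choose 2) (cnd w) * d ∧
      l1 F ≤ (min ((d + 2).choose 2) (cnd w)).factorial *
        (2 ^ d) ^ (min ((d + 2).choose 2) (cnd w)) ∧
      ∀ (L : Type) [Field L] (Q : Fin n → Fin 2 → L), ev Q F ≠ 0 →
        RkI (vIdeal 1 w (fun a => Q a 0) (fun a => C (Q a 1))) (↑(Tfin d) : Set (ℕ × ℕ))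
          (min ((d + 2).choose 2) (cnd w)) := by
  classical
  have hr : (Am w (Tfin d) P).rank = min ((d + 2).choose 2) (cnd w) := rank_Am h
  have key : ∀ k : ℕ, (Am w (Tfin d) P).rank = k →
      ∃ (f : Fin k → Cd w) (g : Fin k → Fin (Tfin d).card),
        ((Am w (Tfin d) P).submatrix f g).det ≠ 0 := by
    rintro _ rfl
    exact exists_minor _
  obtain ⟨f, g, hfg⟩ := key _ hr
  have hb : ∀ j, (enumM (Tfin d) (g j)).1 + (enumM (Tfin d) (g j)).2 ≤ d := fun j =>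
    mem_T (enumM_mem _ _)
  have hev : ev P (Matrix.of fun i j => ent (f i) (enumM (Tfin d) (g j))).det =
      ((Am w (Tfin d) P).submatrix f g).det := by
    rw [RingHom.map_det]
    rfl
  refine ⟨(Matrix.of fun i j => ent (f i) (enumM (Tfin d) (g j))).det, ?_, ?_, ?_, ?_⟩
  · intro h0
    apply hfg
    rw [← hev, h0, map_zero]
  · exact deg_det _ d fun i j => (deg_ent _ _).trans (hb j)
  · exact l1_det _ (2 ^ d) fun i j => (l1_ent _ _).trans (Nat.pow_le_pow_right (by norm_num) (hb j))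
  · intro L _ Q hQ
    exact rk_of_minor f g hQ

/-- **two degrees** -/
theorem spread {K : Type*} [Field K] {n : ℕ} {w : Fin n → ℕ} {P : Fin n → Fin 2 → K} {e f : ℕ}
    (he : ED K w P e) (hf : ED K w P f) (h1 : (e + 2).choose 2 ≤ cnd w)
    (h2 : cnd w ≤ (f + 2).choose 2) :
    ∃ F : MvPolynomial (Fin n × Fin 2) ℤ, F ≠ 0 ∧
      F.totalDegree ≤ cnd w * (e + f) ∧
      l1 F ≤ (cnd w).factorial ^ 2 * 2 ^ (cnd w * (e + f)) ∧
      ∀ (L : Type) [Field L] (Q : Fin n → Fin 2 → L), ev Q F ≠ 0 →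
        ∀ d : ℕ, d ≤ e ∨ f ≤ d → ED L w Q d := by
  obtain ⟨F1, a1, a2, a3, a4⟩ := one_degree he
  obtain ⟨F2, b1, b2, b3, b4⟩ := one_degree hf
  rw [min_eq_left h1] at a2 a3 a4
  rw [min_eq_right h2] at b2 b3 b4
  refine ⟨F1 * F2, mul_ne_zero a1 b1, ?_, ?_, fun L _ Q hQ d hd => ?_⟩
  · refine (MvPolynomial.totalDegree_mul _ _).trans ?_
    rw [mul_add]
    exact Nat.add_le_add (a2.trans (Nat.mul_le_mul_right _ h1)) b2
  · refine (l1_mul _ _).trans ?_
    have h3 : l1 F1 ≤ (cnd w).factorial * 2 ^ (cnd w * e) := by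
      refine a3.trans (Nat.mul_le_mul (Nat.factorial_le h1) ?_)
      rw [← pow_mul]
      exact Nat.pow_le_pow_right (by norm_num) (by rw [mul_comm]; exact Nat.mul_le_mul_right _ h1)
    have h4 : l1 F2 ≤ (cnd w).factorial * 2 ^ (cnd w * f) := by
      refine b3.trans (Nat.mul_le_mul le_rfl ?_)
      rw [← pow_mul, mul_comm]
    refine (Nat.mul_le_mul h3 h4).trans (le_of_eq ?_)
    rw [mul_add, pow_add]
    ring
  · rw [map_mul] at hQ
    exact ed_of_rk (a4 L Q (left_ne_zero_of_mul hQ)) (b4 L Q (right_ne_zero_of_mul hQ)) d hd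

/-- the critical degree -/
theorem exists_crit {c : ℕ} (hc : 3 ≤ c) : ∃ e : ℕ, 1 ≤ e ∧ (e + 2).choose 2 ≤ c ∧
    c ≤ (e + 3).choose 2 ∧ e + 1 ≤ Nat.sqrt (2 * c) := by
  have h0 : (1 + 2).choose 2 ≤ c := by simpa [Nat.choose] using hc
  obtain ⟨e, he, hmax⟩ : ∃ e : ℕ, (e + 2).choose 2 ≤ c ∧ ∀ e', (e' + 2).choose 2 ≤ c → e' ≤ e := by
    have hfin : {e : ℕ | (e + 2).choose 2 ≤ c}.Finite := by
      refine (Set.finite_Iic c).subset fun e he => ?_
      have h2 : (e + 2).choose 2 * 2 = (e + 2) * (e + 1) := by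
        rw [Nat.choose_two_right, Nat.div_mul_cancel (Nat.even_mul_pred_self _).two_dvd]
        rfl
      have h3 : (e + 2).choose 2 ≤ c := he
      rw [Set.mem_Iic]
      nlinarith
    obtain ⟨e, he, hmax⟩ := hfin.exists_maximal ⟨1, h0⟩
    refine ⟨e, he, fun e' he' => ?_⟩
    by_contra hcon
    exact hcon (hmax he' (by omega))
  have h1 : 1 ≤ e := hmax 1 h0
  refine ⟨e, h1, he, ?_, ?_⟩
  · by_contra hcon
    have h5 : (e + 1 + 2).choose 2 ≤ c := by
      have h6 : (e + 1 + 2).choose 2 = (e + 3).choose 2 := rfl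
      rw [h6]
      omega
    have := hmax (e + 1) h5
    omega
  · rw [Nat.le_sqrt]
    have h2 : (e + 2).choose 2 * 2 = (e + 2) * (e + 1) := by
      rw [Nat.choose_two_right, Nat.div_mul_cancel (Nat.even_mul_pred_self _).two_dvd]
      rfl
    nlinarith

/-- **all degrees but at most one** -/
theorem spread_all {K : Type*} [Field K] {n : ℕ} {w : Fin n → ℕ} {P : Fin n → Fin 2 → K}
    (hc : 3 ≤ cnd w) (A : Set ℕ) (hA : A = ∅ ∨ ∃ d₀, A = {d₀}) (h : ∀ d, d ∉ A → ED K w P d) :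
    ∃ F : MvPolynomial (Fin n × Fin 2) ℤ, F ≠ 0 ∧
      F.totalDegree ≤ 2 * cnd w * Nat.sqrt (2 * cnd w) ∧
      l1 F ≤ (cnd w).factorial ^ 2 * 4 ^ (cnd w * Nat.sqrt (2 * cnd w)) ∧
      ∀ (L : Type) [Field L] (Q : Fin n → Fin 2 → L), ev Q F ≠ 0 →
        ∀ d : ℕ, d ∉ A → ED L w Q d := by
  obtain ⟨e, h1, h2, h3, h4⟩ := exists_crit hc
  obtain ⟨s, hs⟩ : ∃ s, s = Nat.sqrt (2 * cnd w) := ⟨_, rfl⟩
  rw [← hs] at h4 ⊢
  have hmono : ∀ a b : ℕ, a ≤ b → (a + 2).choose 2 ≤ (b + 2).choose 2 := fun a b hab =>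
    Nat.choose_le_choose 2 (by omega)
  -- the two degrees
  have key : ∃ e' f' : ℕ, e' ∉ A ∧ f' ∉ A ∧ (e' + 2).choose 2 ≤ cnd w ∧ cnd w ≤ (f' + 2).choose 2 ∧
      e' + f' ≤ 2 * s ∧ ∀ d, d ∉ A → d ≤ e' ∨ f' ≤ d := by
    by_cases he : e ∈ A
    · have hA1 : A = {e} := by
        rcases hA with hA | ⟨d₀, hA⟩
        · rw [hA] at he; exact absurd he (by simp)
        · rw [hA] at he ⊢
          rw [Set.mem_singleton_iff] at he
          rw [he]
      refine ⟨e - 1, e + 1, ?_, ?_, (hmono _ _ (by omega)).trans h2, h3, by omega, ?_⟩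
      · rw [hA1, Set.mem_singleton_iff]; omega
      · rw [hA1, Set.mem_singleton_iff]; omega
      · intro d hd
        rw [hA1, Set.mem_singleton_iff] at hd
        omega
    · by_cases he1 : e + 1 ∈ A
      · have hA1 : A = {e + 1} := by
          rcases hA with hA | ⟨d₀, hA⟩
          · rw [hA] at he1; exact absurd he1 (by simp)
          · rw [hA] at he1 ⊢
            rw [Set.mem_singleton_iff] at he1
            rw [he1]
        refine ⟨e, e + 2, he, ?_, h2, h3.trans (hmono _ _ (by omega)), by omega, ?_⟩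
        · rw [hA1, Set.mem_singleton_iff]; omega
        · intro d hd
          rw [hA1, Set.mem_singleton_iff] at hd
          omega
      · exact ⟨e, e + 1, he, he1, h2, h3, by omega, fun d _ => by omega⟩
  obtain ⟨e', f', k1, k2, k3, k4, k5, k6⟩ := key
  obtain ⟨F, a1, a2, a3, a4⟩ := spread (h e' k1) (h f' k2) k3 k4
  refine ⟨F, a1, a2.trans ?_, a3.trans ?_, fun L _ Q hQ d hd => a4 L Q hQ d (k6 d hd)⟩
  · calc cnd w * (e' + f') ≤ cnd w * (2 * s) := Nat.mul_le_mul_left _ k5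
      _ = 2 * cnd w * s := by ring
  · refine Nat.mul_le_mul_left _ ?_
    calc 2 ^ (cnd w * (e' + f')) ≤ 2 ^ (cnd w * (2 * s)) :=
          Nat.pow_le_pow_right (by norm_num) (Nat.mul_le_mul_left _ k5)
      _ = 4 ^ (cnd w * s) := by
          rw [show (4 : ℕ) = 2 ^ 2 by norm_num, ← pow_mul]
          congr 1
          ring

end Pool.Agent.Y210.EF
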