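import Mathlib
import Pool.Agent.Y210.EF.Spread
import Pool.Agent.Y210.EF.Expo

set_option autoImplicit false

/-! Zeros of integral polynomials of bounded degree and height: counts, explicit points. -/

namespace Pool.Agent.Y210.EF

open MvPolynomial

/-- The value at `Y` of a polynomial with integral coefficients in the coordinates of `n` points. -/
noncomputable def val {L : Type} [Field L] {n : ℕ} (Φ : MvPolynomial (Fin n × Fin 2) ℤ)
    (Y : Fin n → Fin 2 → L) : L :=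
  eval (fun ij : Fin n × Fin 2 => Y ij.1 ij.2) (Φ.map (Int.castRingHom L))

/-- The `n` points with the affine coordinates `exp (2 ^ (k / (2 n)))`, `k = 0, 1, …, 2 n - 1`. -/
noncomputable def rpts (n : ℕ) : Fin n → Fin 2 → ℝ := fun i j =>
  Real.exp ((2 : ℝ) ^ (((2 * (i : ℕ) + (j : ℕ) : ℕ) : ℝ) / (2 * n)))

theorem val_eq {L : Type} [Field L] {n : ℕ} (Φ : MvPolynomial (Fin n × Fin 2) ℤ)
    (Y : Fin n → Fin 2 → L) : val Φ Y = ev Y Φ := by
  unfold val ev
  rw [eval_map, coe_eval₂Hom]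

/-- counts of the zeros over a field of characteristic zero or large -/
theorem val_count {n : ℕ} {Φ : MvPolynomial (Fin n × Fin 2) ℤ} {B H : ℕ} (h1 : Φ ≠ 0)
    (h2 : Φ.totalDegree ≤ B) (h3 : l1 Φ ≤ H) (L : Type) [Field L]
    (hL : CharZero L ∨ ∃ p : ℕ, CharP L p ∧ H < p) :
    Φ.map (Int.castRingHom L) ≠ 0 ∧
      ∀ S : Finset L, Set.ncard {Y : Fin n × Fin 2 → L | (∀ ij, Y ij ∈ S) ∧
        val Φ (fun i j => Y (i, j)) = 0} * S.card ≤ B * S.card ^ (2 * n) := by
  classical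
  have h5 := map_ne_zero_of_lt h1 h3 hL
  refine ⟨h5, fun S => ?_⟩
  have h6 := count_zeros h5 ((Finset.sup_mono (support_map_subset _ _)).trans h2) S
  refine le_trans (le_of_eq ?_) h6
  congr 1
  rw [← Set.ncard_coe_finset]
  congr 1
  ext Y
  simp only [Set.mem_ofPred_eq, Finset.coe_filter, Fintype.mem_piFinset, val]

/-- explicit integral points -/
theorem val_kron {n : ℕ} {Φ : MvPolynomial (Fin n × Fin 2) ℤ} {B H : ℕ} (h1 : Φ ≠ 0)
    (h2 : Φ.totalDegree ≤ B) (h3 : l1 Φ ≤ H) {E T : ℕ} (hE : B < E) (hT : H < T)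
    (L : Type) [Field L] [CharZero L] :
    val Φ (fun (i : Fin n) (j : Fin 2) => (T : L) ^ E ^ (2 * (i : ℕ) + (j : ℕ))) ≠ 0 := by
  have h5 := kron_points h1 (h2.trans_lt hE) (h3.trans_lt hT)
  intro h0
  apply h5
  have h6 : val Φ (fun (i : Fin n) (j : Fin 2) =>
      ((((T : ℤ) ^ (E ^ (idx (i, j))) : ℤ)) : L)) =
      ((eval (fun ij : Fin n × Fin 2 => (T : ℤ) ^ (E ^ (idx ij))) Φ : ℤ) : L) := by
    unfold val
    rw [eval_map]
    have h7 := MvPolynomial.eval₂_comp_left (Int.castRingHom L) (RingHom.id ℤ)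
      (fun ij : Fin n × Fin 2 => (T : ℤ) ^ (E ^ (idx ij))) Φ
    rw [RingHom.comp_id] at h7
    show _ = (Int.castRingHom L) (eval₂ (RingHom.id ℤ) _ Φ)
    rw [h7]
    congr 1
  have h7 : (fun (i : Fin n) (j : Fin 2) =>
      ((((T : ℤ) ^ (E ^ (idx (i, j))) : ℤ)) : L)) =
      fun (i : Fin n) (j : Fin 2) => (T : L) ^ E ^ (2 * (i : ℕ) + (j : ℕ)) := by
    funext i j
    simp [idx]
  rw [h7, h0] at h6
  exact_mod_cast h6.symm

/-- the explicit real points -/
theorem val_real {n : ℕ} (hn : 1 ≤ n) {Φ : MvPolynomial (Fin n × Fin 2) ℤ} (h1 : Φ ≠ 0) :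
    val Φ (rpts n) ≠ 0 := by
  intro h0
  apply exp_points hn h1
  have h6 := congrArg (fun x : ℝ => (x : ℂ)) h0
  simp only [Complex.ofReal_zero] at h6
  rw [← h6]
  unfold val rpts
  rw [eval_map]
  have h7 := MvPolynomial.eval₂_comp_left Complex.ofRealHom (Int.castRingHom ℝ)
    (fun ij : Fin n × Fin 2 => Real.exp ((2 : ℝ) ^ (((2 * (ij.1 : ℕ) + (ij.2 : ℕ) : ℕ) : ℝ) /
      (2 * n)))) Φ
  show _ = Complex.ofRealHom _
  rw [h7]
  have h8 : Complex.ofRealHom.comp (Int.castRingHom ℝ) = Int.castRingHom ℂ :=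
    RingHom.ext_int _ _
  rw [h8]
  congr 1
  funext ij
  show _ = ((Real.exp _ : ℝ) : ℂ)
  rw [Complex.ofReal_exp]
  rfl

/-- the expected dimension in one degree, over every field -/
theorem one_ed {K : Type*} [Field K] {n : ℕ} {w : Fin n → ℕ} {P : Fin n → Fin 2 → K} {d : ℕ}
    (h : ED K w P d) :
    ∃ F : MvPolynomial (Fin n × Fin 2) ℤ, F ≠ 0 ∧
      F.totalDegree ≤ min ((d + 2).choose 2) (cnd w) * d ∧
      l1 F ≤ (min ((d + 2).choose 2) (cnd w)).factorial *
        (2 ^ d) ^ (min ((d + 2).choose 2) (cnd w)) ∧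
      ∀ (L : Type) [Field L] (Q : Fin n → Fin 2 → L), ev Q F ≠ 0 → ED L w Q d := by
  obtain ⟨F, h1, h2, h3, h4⟩ := one_degree h
  refine ⟨F, h1, h2, h3, fun L _ Q hQ => ?_⟩
  have h5 := h4 L Q hQ
  have hsum : ∑ a, (Pool.Agent.H932R2.EE 1 (w a)).card = ∑ i, (w i + 1).choose 2 := by
    have h1 : Fintype.card (Cd w) = ∑ a, (Pool.Agent.H932R2.EE 1 (w a)).card := by
      rw [Fintype.card_sigma]
      exact Finset.sum_congr rfl fun a _ => Fintype.card_coe _
    rw [← h1, card_Cd]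
  have key : Module.finrank L ↥(Pool.Agent.H932R2.mspan L (Pool.Agent.H932R2.Tset d) ⊓
      Submodule.restrictScalars L
      (Pool.Agent.H932R3.vIdeal 1 w (fun a => Q a 0) (fun a => Polynomial.C (Q a 1)))) =
      (d + 2).choose 2 - ∑ a, (Pool.Agent.H932R2.EE 1 (w a)).card := by
    rcases le_total ((d + 2).choose 2) (cnd w) with h | h
    · rw [min_eq_left h, ← card_T] at h5
      rw [← Pool.Agent.H932R2.coe_Tfin, ← card_T]
      exact Pool.Agent.H932R3.finrank_infV h5 (Or.inl rfl)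
    · rw [min_eq_right h] at h5
      rw [← Pool.Agent.H932R2.coe_Tfin, ← card_T]
      refine Pool.Agent.H932R3.finrank_infV (n := ∑ a, (Pool.Agent.H932R2.EE 1 (w a)).card) ?_
        (Or.inr rfl)
      rw [hsum]
      exact h5
  rw [hsum] at key
  unfold ED
  rw [← key]
  refine Pool.Agent.H932R2.finrank_forms _ _ fun F hF => ?_
  rw [Submodule.restrictScalars_mem, Submodule.restrictScalars_mem]
  unfold Pool.Agent.H932R3.vIdeal
  rw [Ideal.mem_iInf, Ideal.mem_iInf]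
  exact forall_congr' fun i => Pool.Agent.H932R2.mem_ptIdeal_iff hF

end Pool.Agent.Y210.EF
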