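import Mathlib
import Pool.Agent.Y210.EF.Vec

set_option autoImplicit false

/-! All degrees outside a window at once. -/

namespace Pool.Agent.Y210.EF

open MvPolynomial

theorem sum_EE {n : ℕ} (w : Fin n → ℕ) :
    ∑ a, (Pool.Agent.H932R2.EE 1 (w a)).card = ∑ i, (w i + 1).choose 2 := by
  have h1 : Fintype.card (Cd w) = ∑ a, (Pool.Agent.H932R2.EE 1 (w a)).card := by
    rw [Fintype.card_sigma]
    exact Finset.sum_congr rfl fun a _ => Fintype.card_coe _
  rw [← h1, card_Cd]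

theorem ed_of_key {L : Type*} [Field L] {n : ℕ} {w : Fin n → ℕ} {Q : Fin n → Fin 2 → L} {d : ℕ}
    (key : Module.finrank L ↥(Pool.Agent.H932R2.mspan L (Pool.Agent.H932R2.Tset d) ⊓
      Submodule.restrictScalars L
      (Pool.Agent.H932R3.vIdeal 1 w (fun a => Q a 0) (fun a => Polynomial.C (Q a 1)))) =
      (d + 2).choose 2 - ∑ a, (Pool.Agent.H932R2.EE 1 (w a)).card) : ED L w Q d := by
  rw [sum_EE] at key
  unfold ED
  rw [← key]
  refine Pool.Agent.H932R2.finrank_forms _ _ fun F hF => ?_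
  rw [Submodule.restrictScalars_mem, Submodule.restrictScalars_mem]
  unfold Pool.Agent.H932R3.vIdeal
  rw [Ideal.mem_iInf, Ideal.mem_iInf]
  exact forall_congr' fun i => Pool.Agent.H932R2.mem_ptIdeal_iff hF

/-- the degrees below -/
theorem ed_down {L : Type*} [Field L] {n : ℕ} {w : Fin n → ℕ} {Q : Fin n → Fin 2 → L} {e : ℕ}
    (h2 : Pool.Agent.H932R2.RkI (Pool.Agent.H932R3.vIdeal 1 w (fun a => Q a 0)
      (fun a => Polynomial.C (Q a 1))) (↑(Pool.Agent.H932R2.Tfin e) : Set (ℕ × ℕ))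
      ((e + 2).choose 2)) {d : ℕ} (h : d ≤ e) : ED L w Q d := by
  refine ed_of_key ?_
  rw [← Pool.Agent.H932R2.coe_Tfin, ← card_T]
  refine Pool.Agent.H932R3.finrank_infV (n := (Pool.Agent.H932R2.Tfin d).card) ?_ (Or.inl rfl)
  rw [← card_T] at h2
  refine h2.subset ?_
  have := Pool.Agent.H932R2.Tset_mono h
  rw [← Pool.Agent.H932R2.coe_Tfin, ← Pool.Agent.H932R2.coe_Tfin] at this
  exact_mod_cast this

/-- the degrees above -/
theorem ed_up {L : Type*} [Field L] {n : ℕ} {w : Fin n → ℕ} {Q : Fin n → Fin 2 → L} {f : ℕ}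
    (h3 : Pool.Agent.H932R2.RkI (Pool.Agent.H932R3.vIdeal 1 w (fun a => Q a 0)
      (fun a => Polynomial.C (Q a 1))) (↑(Pool.Agent.H932R2.Tfin f) : Set (ℕ × ℕ))
      (cnd w)) {d : ℕ} (h : f ≤ d) : ED L w Q d := by
  refine ed_of_key ?_
  rw [← Pool.Agent.H932R2.coe_Tfin, ← card_T]
  refine Pool.Agent.H932R3.finrank_infV (n := ∑ a, (Pool.Agent.H932R2.EE 1 (w a)).card) ?_
    (Or.inr rfl)
  rw [Pool.Agent.H932R2.coe_Tfin] at h3 ⊢
  rw [sum_EE]
  exact h3.mono (Pool.Agent.H932R2.Tset_mono h)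

theorem ch_two (d : ℕ) : (d + 2).choose 2 * 2 = (d + 2) * (d + 1) := by
  rw [Nat.choose_two_right, Nat.div_mul_cancel (Nat.even_mul_pred_self _).two_dvd]
  rfl

/-- **all degrees outside a window** -/
theorem window {K : Type*} [Field K] {n : ℕ} {w : Fin n → ℕ} {P : Fin n → Fin 2 → K} (R : ℕ)
    (h : ∀ d, ((d + 2).choose 2 + R ≤ cnd w ∨ cnd w + R ≤ (d + 2).choose 2) → ED K w P d) :
    ∃ F : MvPolynomial (Fin n × Fin 2) ℤ, F ≠ 0 ∧
      F.totalDegree ≤ 2 * cnd w * Nat.sqrt (2 * (cnd w + R)) ∧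
      l1 F ≤ (cnd w).factorial ^ 2 * 4 ^ (cnd w * Nat.sqrt (2 * (cnd w + R))) ∧
      ∀ (L : Type) [Field L] (Q : Fin n → Fin 2 → L), ev Q F ≠ 0 →
        ∀ d : ℕ, ((d + 2).choose 2 + R ≤ cnd w ∨ cnd w + R ≤ (d + 2).choose 2) → ED L w Q d := by
  classical
  obtain ⟨c, hc⟩ : ∃ c, c = cnd w := ⟨_, rfl⟩
  obtain ⟨s, hs⟩ : ∃ s, s = Nat.sqrt (2 * (c + R)) := ⟨_, rfl⟩
  rw [← hc, ← hs]
  -- the upper degree
  have hup : ∃ f, cnd w + R ≤ (f + 2).choose 2 := by
    refine ⟨s, ?_⟩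
    have h1 := Nat.lt_succ_sqrt (2 * (c + R))
    rw [← hs] at h1
    have h2 := ch_two s
    rw [← hc]
    have h3 : (s + 1) * (s + 1) ≤ (s + 2) * (s + 1) := Nat.mul_le_mul_right _ (by omega)
    have h4 : Nat.succ s * Nat.succ s = (s + 1) * (s + 1) := rfl
    omega
  obtain ⟨f, hf, hfmin⟩ : ∃ f, cnd w + R ≤ (f + 2).choose 2 ∧
      ∀ d, cnd w + R ≤ (d + 2).choose 2 → f ≤ d :=
    ⟨Nat.find hup, Nat.find_spec hup, fun d hd => Nat.find_min' hup hd⟩
  have hfs : f ≤ s := by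
    refine hfmin s ?_
    have h1 := Nat.lt_succ_sqrt (2 * (c + R))
    rw [← hs] at h1
    have h2 := ch_two s
    rw [← hc]
    have h3 : (s + 1) * (s + 1) ≤ (s + 2) * (s + 1) := Nat.mul_le_mul_right _ (by omega)
    have h4 : Nat.succ s * Nat.succ s = (s + 1) * (s + 1) := rfl
    omega
  obtain ⟨F2, b1, b2, b3, b4⟩ := one_degree (h f (Or.inr hf))
  have hmin2 : min ((f + 2).choose 2) (cnd w) = cnd w := min_eq_right (by omega)
  rw [hmin2] at b2 b3 b4
  have b2' : F2.totalDegree ≤ c * s := b2.trans (by rw [← hc]; exact Nat.mul_le_mul_left _ hfs)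
  have b3' : l1 F2 ≤ c.factorial * 2 ^ (c * s) := by
    refine b3.trans ?_
    rw [← hc, ← pow_mul, mul_comm f c]
    exact Nat.mul_le_mul_left _ (Nat.pow_le_pow_right (by norm_num) (Nat.mul_le_mul_left _ hfs))
  -- the lower degree
  obtain ⟨F1, a1, a2, a3, a4⟩ : ∃ F1 : MvPolynomial (Fin n × Fin 2) ℤ, F1 ≠ 0 ∧
      F1.totalDegree ≤ c * s ∧ l1 F1 ≤ c.factorial * 2 ^ (c * s) ∧
      ∀ (L : Type) [Field L] (Q : Fin n → Fin 2 → L), ev Q F1 ≠ 0 →
        ∀ d : ℕ, (d + 2).choose 2 + R ≤ cnd w → ED L w Q d := by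
    by_cases hex : ∃ d, (d + 2).choose 2 + R ≤ cnd w
    · have hle : ∀ d, (d + 2).choose 2 + R ≤ cnd w → d ≤ s := by
        intro d hd
        rw [hs, Nat.le_sqrt]
        have h2 := ch_two d
        have h3 : d * d ≤ (d + 2) * (d + 1) := Nat.mul_le_mul (by omega) (by omega)
        omega
      obtain ⟨d0, hd0⟩ := hex
      obtain ⟨e, he, hemax⟩ : ∃ e, (e + 2).choose 2 + R ≤ cnd w ∧
          ∀ d, (d + 2).choose 2 + R ≤ cnd w → d ≤ e :=
        ⟨Nat.findGreatest (fun d => (d + 2).choose 2 + R ≤ cnd w) s,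
          Nat.findGreatest_spec (P := fun d => (d + 2).choose 2 + R ≤ cnd w) (hle d0 hd0) hd0,
          fun d hd => Nat.le_findGreatest (hle d hd) hd⟩
      have hes := hle e he
      obtain ⟨F1, a1, a2, a3, a4⟩ := one_degree (h e (Or.inl he))
      have hmin1 : min ((e + 2).choose 2) (cnd w) = (e + 2).choose 2 := min_eq_left (by omega)
      have hec : (e + 2).choose 2 ≤ c := by omega
      rw [hmin1] at a2 a3 a4
      refine ⟨F1, a1, a2.trans (Nat.mul_le_mul hec hes), a3.trans ?_, fun L _ Q hQ d hd =>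
        ed_down (a4 L Q hQ) (hemax d hd)⟩
      refine Nat.mul_le_mul (Nat.factorial_le hec) ?_
      rw [← pow_mul]
      refine Nat.pow_le_pow_right (by norm_num) ?_
      rw [mul_comm c s]
      exact Nat.mul_le_mul hes hec
    · push Not at hex
      refine ⟨1, one_ne_zero, by simp, ?_, fun L _ Q _ d hd => absurd hd (not_le.2 (hex d))⟩
      refine l1_one.trans ?_
      exact Nat.succ_le_of_lt (Nat.mul_pos (Nat.factorial_pos _) (by positivity))
  refine ⟨F1 * F2, mul_ne_zero a1 b1, ?_, ?_, fun L _ Q hQ d hd => ?_⟩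
  · refine (MvPolynomial.totalDegree_mul _ _).trans ((Nat.add_le_add a2 b2').trans (le_of_eq ?_))
    ring
  · refine (l1_mul _ _).trans ((Nat.mul_le_mul a3 b3').trans (le_of_eq ?_))
    rw [show (4 : ℕ) = 2 * 2 by norm_num, mul_pow]
    ring
  · rw [map_mul] at hQ
    rw [hc] at hd
    rcases hd with hd | hd
    · exact a4 L Q (left_ne_zero_of_mul hQ) d hd
    · exact ed_up (b4 L Q (right_ne_zero_of_mul hQ)) (hfmin d hd)

end Pool.Agent.Y210.EF
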